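import Pool.Agent.H106R3.VB.Jump

/-!
# Jumping lines of large gap through every point of an indecomposable rank two bundle

Let `E` be a rank two vector bundle on `P^n` which does not split, let `Λ ⊆ P^n` be a linear subspace
of (projective) dimension `m ≥ 2` and let `P` be a point of `Λ`.  Then there is a line `L` with
`P ∈ L ⊆ Λ` such that `E|_L ≅ O(p) ⊕ O(q)` with `|p - q| ≥ m - 1`.
-/

set_option autoImplicit false

namespace Pool.Agent.Results.MP_b01859_ag.JumpingLines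

open H960VB

theorem result {n : ℕ} (E : Bundle2 n) (hE : ¬ E.Splits)
    (Λ : Submodule ℂ (Fin (n + 1) → ℂ)) (hΛ : 3 ≤ Module.finrank ℂ Λ)
    (P : Fin (n + 1) → ℂ) (hPΛ : P ∈ Λ) (hP : P ≠ 0) :
    ∃ Q ∈ Λ, LinearIndependent ℂ ![P, Q] ∧
      ∃ p q : ℤ, E.SplitsOn P Q p q ∧ (Module.finrank ℂ Λ : ℤ) - 2 ≤ |p - q| := by
  by_contra hcon
  push Not at hcon
  refine hE (E.main_subspace Λ hΛ P hPΛ hP fun Q hQ hPQ => ?_)
  obtain ⟨p, q, hpq⟩ := Pool.Agent.H106R3.VB.splitsOn_exists E hPQ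
  have := hcon Q hQ hPQ p q hpq
  exact ⟨p, q, by omega, hpq⟩

end Pool.Agent.Results.MP_b01859_ag.JumpingLines
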